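import Mathlib
import Pool.Agent.H98.GP3

namespace Pool.Agent.Results.MP_683aef_lc.FourClasses

open FirstOrder Language Set Pool.Agent.H98.GP

/-- Countable models of `T`. -/
def CM {L : FirstOrder.Language.{0, 0}} (T : L.Theory) := {M : T.ModelType.{0, 0, 0} // Countable M}

/-- Similarity: mutual elementary embeddability. -/
def Sim {L : FirstOrder.Language.{0, 0}} (T : L.Theory) (A B : CM T) : Prop :=
  Nonempty (A.1 ↪ₑ[L] B.1) ∧ Nonempty (B.1 ↪ₑ[L] A.1)

/-- Isomorphism of structures. -/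
def Isom {L : FirstOrder.Language.{0, 0}} (T : L.Theory) (A B : CM T) : Prop := Nonempty (A.1 ≃[L] B.1)

noncomputable def P0 : PS ℕ :=
  mk (sl := fun _ => Iic ⊥) (fun _ _ _ h e => le_trans h e) (fun _ => self_mem_Iic) fun _ _ => False

def TT : L.Theory := @Language.completeTheory L ℕ P0.str

lemma model {Q : PS ℕ} (hQ : Q.Ext) : @Theory.Model L ℕ Q.str TT := by
  letI := Q.str
  refine ⟨fun φ h => ?_⟩
  obtain ⟨Φ, hΦ⟩ := ef φ
  exact (hΦ ℕ ℕ P0 Q (mk_ext _ _ _) hQ ∅ ⟨⟨finite_empty, by simp⟩, by simp⟩ _ _ _ _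
    (fun x => x.elim) fun i => i.elim0).1 h

def mdl {Q : PS ℕ} (hQ : Q.Ext) : CM TT :=
  ⟨@Theory.ModelType.mk L TT ℕ Q.str (model hQ) inferInstance, inferInstanceAs (Countable ℕ)⟩

lemma ps (M : TT.ModelType.{0, 0, 0}) : ∃ Q : PS M, M.struc = Q.str ∧ Q.Ext :=
  model_ps (P := P0) (mk_ext _ _ _) (hM := M.is_model)

section
variable (X : Type) [L.Structure X]
def rz : Set Bool := {i | ∃ x : X, {φ | Un φ x} = Lim i}
def mn : Set X := {x | {φ | Un φ x} = Lim true ∧ ∀ y, ¬ (Lt y x ∧ {φ | Un φ y} = {φ | Un φ x})}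
def dg : Set ℕ := {n | ∃ x ∈ mn X, (mn X ∩ {y | Ed x y}).ncard = n + 1}

variable {X} {Y : Type} [L.Structure Y]
lemma un (f : X ↪[L] Y) (x : X) : {φ | Un φ (f x)} = {φ | Un φ x} := by
  ext φ
  have := f.map_rel (Rl.U φ) ![x]
  rwa [show f ∘ ![x] = ![f x] from funext fun i => by fin_cases i; rfl] at this

lemma r2 (f : X ↪[L] Y) (r : Rl 2) (x y : X) :
    Structure.RelMap (L := L) r ![f x, f y] ↔ Structure.RelMap (L := L) r ![x, y] := by
  have := f.map_rel r ![x, y]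
  rwa [show f ∘ ![x, y] = ![f x, f y] from funext fun i => by fin_cases i <;> rfl] at this

lemma rz_sub (f : X ↪ₑ[L] Y) : rz X ⊆ rz Y :=
  fun _ ⟨x, h⟩ => ⟨f.toEmbedding x, (un _ x).trans h⟩

lemma dg_sub (f : X ≃[L] Y) : dg X ⊆ dg Y := by
  have h : ∀ x, f x ∈ mn Y ↔ x ∈ mn X := fun x => and_congr (by rw [← un f.toEmbedding x]; rfl)
    (f.surjective.forall.trans (forall_congr' fun y => not_congr (and_congr (r2 f.toEmbedding _ y x)
      (by rw [← un f.toEmbedding x, ← un f.toEmbedding y]; rfl))))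
  rintro n ⟨x, h1, h2⟩
  refine ⟨f x, (h x).2 h1, ?_⟩
  rw [← h2, ← ncard_image_of_injective _ f.injective]
  congr 1
  ext y
  obtain ⟨y, rfl⟩ := f.surjective y
  rw [f.injective.mem_set_image]
  exact and_congr (h y) (r2 f.toEmbedding _ x y)
end

lemma lim_low (i : Bool) (φ ψ : F) (h : φ ≤ ψ) (e : ψ ∈ Lim i) : φ ∈ Lim i :=
  le_trans (Prod.Lex.monotone_fst_ofLex h) e

lemma lim_inj {i j : Bool} (h : Lim i = Lim j) : i = j :=
  le_antisymm ((Set.ext_iff.1 h (toLex (i, 0))).1 (le_refl i))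
    ((Set.ext_iff.1 h (toLex (j, 0))).2 (le_refl j))

lemma rz_surj (s : Set Bool) : ∃ M : CM TT, rz M.1 = s := by
  classical
  let sl : ℕ → Set F := fun k => if decide (k = 0) ∈ s then Lim (decide (k = 0)) else Iic ⊥
  have h1 : ∀ k φ ψ, φ ≤ ψ → ψ ∈ sl k → φ ∈ sl k := fun k φ ψ h => by
    simp only [sl]; split_ifs; exacts [lim_low _ _ _ h, le_trans h]
  have h2 : ∀ k, ⊥ ∈ sl k := fun k => by
    simp only [sl]; split_ifs; exacts [bot_le (a := decide (k = 0)), self_mem_Iic]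
  refine ⟨mdl (mk_ext h1 h2 fun _ _ => False), Subset.antisymm ?_ fun i hi => ?_⟩
  · rintro i ⟨x, hx⟩
    change (mk h1 h2 fun _ _ => False).τ x = _ at hx
    obtain ⟨k, hk⟩ := (mk_lim h1 h2 _ x fun φ => hx ▸ lim_ne i φ).1
    rw [hx] at hk
    simp only [sl] at hk
    split_ifs at hk with h
    exacts [lim_inj hk ▸ h, absurd hk (lim_ne _ _)]
  · refine ⟨cd.symm (.inl (if i then 0 else 1)), (mk_seed h1 h2 (fun _ _ => False) _).trans ?_⟩
    cases i <;> simp [sl, hi]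

lemma dg_surj (s : Set ℕ) : ∃ M : CM TT, dg M.1 = s := by
  have h1 := fun _ : ℕ => lim_low true
  have h2 : ∀ _ : ℕ, ⊥ ∈ Lim true := fun _ => Bool.le_true _
  let G : ℕ → ℕ → Prop := fun j k => k < j ∧ j - 1 ∈ s
  let c : ℕ → ℕ := fun k => cd.symm (.inl k)
  have hc : Function.Injective c := cd.symm.injective.comp Sum.inl_injective
  letI := (mk h1 h2 G).str
  have hm : mn ℕ = range c := by
    ext x
    refine ⟨fun h => ?_, ?_⟩
    · obtain ⟨k, hk⟩ := (mk_lim h1 h2 G x fun φ e => lim_ne true φ (h.1.symm.trans e)).2.1 h.2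
      exact ⟨k, hk.symm⟩
    · rintro ⟨k, rfl⟩
      have := mk_seed h1 h2 G k
      exact ⟨this, (mk_lim h1 h2 G _ fun φ e => lim_ne true φ (this.symm.trans e)).2.2 ⟨k, rfl⟩⟩
  have hd : ∀ j, (mn ℕ ∩ {y | Ed (c j) y}).ncard = {k | G j k}.ncard := fun j => by
    rw [← ncard_image_of_injective {k | G j k} hc, hm]
    congr 1
    ext y
    constructor
    · rintro ⟨⟨m, rfl⟩, h⟩
      change (mk h1 h2 G).E (c j) (c m) at h
      simp [H98.GP.mk, c] at h
      exact ⟨m, h.2, rfl⟩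
    · rintro ⟨m, h, e⟩
      subst e
      exact ⟨⟨m, rfl⟩, fun e => h.1.ne' (hc e), .inl ⟨j, m, by simp [c], by simp [c], h⟩⟩
  refine ⟨mdl (mk_ext h1 h2 G), Subset.antisymm ?_ fun n hn => ⟨c (n + 1), hm.ge ⟨_, rfl⟩, ?_⟩⟩
  · rintro n ⟨x, hx, h⟩
    obtain ⟨j, rfl⟩ := hm.le hx
    replace h := (hd j).symm.trans h
    by_cases e : j - 1 ∈ s
    · rw [show {k | G j k} = Iio j by ext; simp [G, e], ncard_Iio_nat] at h
      simpa [h] using e
    · simp [G, e] at h
  · refine (hd _).trans ?_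
    rw [show {k | G (n + 1) k} = Iio (n + 1) by ext; simp [G, hn], ncard_Iio_nat]

theorem result : ∃ (L : FirstOrder.Language.{0, 0}) (T : L.Theory), Countable L.Symbols ∧ T.IsComplete ∧
    (∀ M : T.ModelType.{0, 0, 0}, Infinite M) ∧ Nat.card (Quot (Sim T)) = 4 ∧
    Uncountable (Quot (Isom T)) := by
  refine ⟨L, TT, ?_, @completeTheory.isComplete L ℕ P0.str _, fun M => ?_, ?_, ⟨fun h => ?_⟩⟩
  · haveI : Countable F := inferInstanceAs (Countable (Bool × ℕ))
    haveI : ∀ n, Countable (L.Relations n) := fun n => Function.Injective.countable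
      (f := fun r : Rl n => (match n, r with
        | _, .lt => .inl false | _, .E => .inl true | _, .U φ => .inr φ : Bool ⊕ F))
      fun r s h => by cases r <;> cases s <;> simp_all
    haveI : ∀ n, Countable (L.Functions n) := fun n => inferInstanceAs (Countable Empty)
    unfold Language.Symbols
    infer_instance
  · obtain ⟨Q, -, hQ⟩ := ps M
    refine not_finite_iff_infinite.1 fun h => ?_
    haveI := Fintype.ofFinite M
    obtain ⟨y, hy, -⟩ := hQ Finset.univ (fun _ => False) (fun _ => False) (fun _ => False)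
      (fun _ => False) ⊥ (by simp) (by simp) (by simp) (by simp)
    exact hy (Finset.mem_univ y)
  · have key : ∀ A B : CM TT, rz A.1 ⊆ rz B.1 → Nonempty (A.1 ↪ₑ[L] B.1) := fun A B h => by
      obtain ⟨P, e1, hP⟩ := ps A.1
      obtain ⟨Q, e2, hQ⟩ := ps B.1
      haveI := A.2
      rw [e1, e2] at h ⊢
      exact embed hP hQ h
    rw [Nat.card_eq_of_bijective (Quot.lift (fun M : CM TT => rz M.1) fun A B ⟨⟨f⟩, ⟨g⟩⟩ =>
      (rz_sub f).antisymm (rz_sub g)) ⟨?_, fun s => ?_⟩]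
    · simp
    · rintro ⟨A⟩ ⟨B⟩ h
      exact Quot.sound ⟨key A B h.le, key B A h.ge⟩
    · obtain ⟨M, h⟩ := rz_surj s
      exact ⟨Quot.mk _ M, h⟩
  · haveI : Countable (Set ℕ) := Function.Surjective.countable (f := Quot.lift
      (r := Isom TT)
      (fun M : CM TT => dg M.1) fun A B ⟨f⟩ => (dg_sub f).antisymm (dg_sub f.symm)) fun s => by
        obtain ⟨M, h⟩ := dg_surj s
        exact ⟨Quot.mk _ M, h⟩
    obtain ⟨f, hf⟩ := exists_surjective_nat (Set ℕ)
    exact Function.cantor_surjective f hf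

end Pool.Agent.Results.MP_683aef_lc.FourClasses
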